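import Pool.Agent.H44.EHN.Stmts

/-!
# Board `ehn`, row SUP (helper93): the lower bound for infinitely many `x`

`J = ⌊N ^ μ⌋` in `DIC`, `θ < μ < 7 / 10`, `μ (1 + θ) < 1`.
-/

set_option autoImplicit false

open Classical

namespace EHN

/-- powers of the logarithm are small -/
private theorem sup_log (K r s : ℝ) (hK : 0 < K) (hs : 0 < s) :
    ∀ᶠ N : ℕ in Filter.atTop, (Real.log (N : ℝ)) ^ r < K * (N : ℝ) ^ s := by
  have h := (isLittleO_log_rpow_rpow_atTop r hs).def (c := K / 2) (by positivity)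
  have h' := (tendsto_natCast_atTop_atTop (R := ℝ)).eventually h
  filter_upwards [h', Filter.eventually_ge_atTop 1] with N hN h1
  have hN0 : (0 : ℝ) < N := by exact_mod_cast h1
  have hp : (0 : ℝ) < (N : ℝ) ^ s := Real.rpow_pos_of_pos hN0 _
  rw [Real.norm_eq_abs, Real.norm_eq_abs, abs_of_pos hp] at hN
  have h2 := (le_abs_self _).trans hN
  nlinarith

theorem sup_thm (hDIC : DICStmt) : SUPStmt := by
  intro d hd θ hθ hθ1
  obtain ⟨c, C, hc, hC, hev⟩ := hDIC d hd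
  have hC0 : 0 < C := by linarith
  have hθ7 : θ < 7 / 10 := by
    by_contra h
    push Not at h
    nlinarith
  have hθ2 : θ < 1 / (1 + θ) := by
    rw [lt_div_iff₀ (by linarith)]
    exact hθ1
  obtain ⟨μ, hμ1, hμ2⟩ := exists_between (lt_min hθ7 hθ2)
  have hμ7 : μ < 7 / 10 := lt_of_lt_of_le hμ2 (min_le_left _ _)
  have hμθ : μ * (1 + θ) < 1 := by
    have h := lt_of_lt_of_le hμ2 (min_le_right _ _)
    rwa [lt_div_iff₀ (by linarith)] at h
  have hμ0 : 0 < μ := hθ.trans hμ1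
  rw [Filter.Frequently]
  intro hcon
  have e1 := sup_log (1 / 2) 2 μ (by norm_num) hμ0
  have hs1 : 0 < 1 - μ - μ * θ := by nlinarith
  have e2 := sup_log (c / C ^ θ) (1 + θ) (1 - μ - μ * θ) (by positivity) hs1
  have e3 := sup_log (c / 2 / C ^ θ) (2 + θ) (μ - θ) (by positivity) (by linarith)
  obtain ⟨X, hX⟩ := Filter.eventually_atTop.1 hcon
  obtain ⟨N, h0, h1, h2, h3, h4, h5⟩ := (hev.and (e1.and (e2.and (e3.and
    ((Filter.eventually_ge_atTop X).and (Filter.eventually_ge_atTop 3)))))).exists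
  have hN3 : (3 : ℝ) ≤ N := by exact_mod_cast h5
  have hN0 : (0 : ℝ) < N := by linarith
  have hl1 : 1 ≤ Real.log N := by
    rw [Real.le_log_iff_exp_le hN0]
    have := Real.exp_one_lt_d9
    linarith
  have hl0 : 0 < Real.log N := by linarith
  have hP1 : 1 ≤ (N : ℝ) ^ μ := Real.one_le_rpow (by linarith) hμ0.le
  have hJle : (⌊(N : ℝ) ^ μ⌋₊ : ℝ) ≤ (N : ℝ) ^ μ := Nat.floor_le (by linarith)
  have hJ1 : (1 : ℝ) ≤ (⌊(N : ℝ) ^ μ⌋₊ : ℝ) := by
    have : 1 ≤ ⌊(N : ℝ) ^ μ⌋₊ := Nat.le_floor (by simpa using hP1)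
    exact_mod_cast this
  have hJge : (N : ℝ) ^ μ / 2 ≤ (⌊(N : ℝ) ^ μ⌋₊ : ℝ) := by
    have := Nat.lt_floor_add_one ((N : ℝ) ^ μ)
    linarith
  have hlog2 : Real.log N ^ 2 ≤ (⌊(N : ℝ) ^ μ⌋₊ : ℝ) := by
    have h6 : Real.log (N : ℝ) ^ (2 : ℝ) = Real.log N ^ 2 := Real.rpow_two _
    rw [h6] at h1
    linarith
  have hJ7 : (⌊(N : ℝ) ^ μ⌋₊ : ℝ) ≤ (N : ℝ) ^ (7 / 10 : ℝ) :=
    hJle.trans (Real.rpow_le_rpow_of_exponent_le (by linarith) hμ7.le)
  -- the values of `x`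
  have hx : ∀ M : ℝ, 1 ≤ M → ((S d ⌊Real.exp (C * M * Real.log N)⌋₊).card : ℝ) <
      C ^ θ * M ^ θ * Real.log N ^ θ := by
    intro M hM
    have hM0 : 0 < M := by linarith
    have hge : N ≤ ⌊Real.exp (C * M * Real.log N)⌋₊ := by
      refine Nat.le_floor ?_
      calc (N : ℝ) = Real.exp (Real.log N) := (Real.exp_log hN0).symm
        _ ≤ Real.exp (C * M * Real.log N) := by
          refine Real.exp_le_exp.2 ?_
          have : 1 ≤ C * M := by nlinarith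
          nlinarith
    have h6 := hX _ (le_trans h4 hge)
    push Not at h6
    refine lt_of_lt_of_le h6 ?_
    have h7 : (0 : ℝ) < (⌊Real.exp (C * M * Real.log N)⌋₊ : ℝ) := by
      have : (N : ℝ) ≤ (⌊Real.exp (C * M * Real.log N)⌋₊ : ℝ) := by exact_mod_cast hge
      linarith
    have h8 : Real.log (⌊Real.exp (C * M * Real.log N)⌋₊ : ℝ) ≤ C * M * Real.log N := by
      rw [Real.log_le_iff_le_exp h7]
      exact Nat.floor_le (Real.exp_pos _).le
    have h9 : 0 ≤ Real.log (⌊Real.exp (C * M * Real.log N)⌋₊ : ℝ) := by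
      refine Real.log_nonneg ?_
      have : (N : ℝ) ≤ (⌊Real.exp (C * M * Real.log N)⌋₊ : ℝ) := by exact_mod_cast hge
      linarith
    calc Real.log (⌊Real.exp (C * M * Real.log N)⌋₊ : ℝ) ^ θ ≤ (C * M * Real.log N) ^ θ :=
          Real.rpow_le_rpow h9 h8 hθ.le
      _ = C ^ θ * M ^ θ * Real.log N ^ θ := by
          rw [Real.mul_rpow (by positivity) hl0.le, Real.mul_rpow hC0.le hM0.le]
  have hCθ : 0 < C ^ θ := Real.rpow_pos_of_pos hC0 _
  have hlθ : 0 < Real.log N ^ θ := Real.rpow_pos_of_pos hl0 _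
  rcases h0 ⌊(N : ℝ) ^ μ⌋₊ hlog2 hJ7 with h | h
  · have h6 := lt_of_le_of_lt h (hx _ hJ1)
    have h7 : c * N / ((N : ℝ) ^ μ * Real.log N) < C ^ θ * (N : ℝ) ^ (μ * θ) * Real.log N ^ θ := by
      refine lt_of_le_of_lt ?_ (lt_of_lt_of_le h6 ?_)
      · have : 0 < (⌊(N : ℝ) ^ μ⌋₊ : ℝ) := by linarith
        gcongr
      · have h8 : (⌊(N : ℝ) ^ μ⌋₊ : ℝ) ^ θ ≤ (N : ℝ) ^ (μ * θ) := by
          rw [Real.rpow_mul hN0.le]
          exact Real.rpow_le_rpow (by linarith) hJle hθ.le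
        gcongr
    rw [div_lt_iff₀ (by positivity)] at h7
    have h8 : Real.log (N : ℝ) ^ (1 + θ) = Real.log N * Real.log N ^ θ := by
      rw [Real.rpow_add hl0, Real.rpow_one]
    have h9 : (N : ℝ) ^ (1 - μ - μ * θ) * ((N : ℝ) ^ μ * (N : ℝ) ^ (μ * θ)) = N := by
      rw [← Real.rpow_add hN0, ← Real.rpow_add hN0]
      have : 1 - μ - μ * θ + (μ + μ * θ) = 1 := by ring
      rw [this, Real.rpow_one]
    rw [h8] at h2
    have hA : 0 < (N : ℝ) ^ μ * (N : ℝ) ^ (μ * θ) := by positivity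
    have h10 : C ^ θ * (Real.log N * Real.log N ^ θ) < c * (N : ℝ) ^ (1 - μ - μ * θ) := by
      have h11 := mul_lt_mul_of_pos_left h2 hCθ
      have h12 : C ^ θ * (c / C ^ θ * (N : ℝ) ^ (1 - μ - μ * θ)) =
          c * (N : ℝ) ^ (1 - μ - μ * θ) := by field_simp
      rwa [h12] at h11
    have h13 := mul_lt_mul_of_pos_right h10 hA
    have h14 : c * (N : ℝ) ^ (1 - μ - μ * θ) * ((N : ℝ) ^ μ * (N : ℝ) ^ (μ * θ)) = c * N := by
      rw [mul_assoc, h9]
    rw [h14] at h13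
    have h15 : C ^ θ * (Real.log N * Real.log N ^ θ) * ((N : ℝ) ^ μ * (N : ℝ) ^ (μ * θ)) =
      C ^ θ * (N : ℝ) ^ (μ * θ) * Real.log N ^ θ * ((N : ℝ) ^ μ * Real.log N) := by ring
    linarith
  · have h6 := lt_of_le_of_lt h (hx N (by linarith))
    have h7 : c * ((N : ℝ) ^ μ / 2) / Real.log N ^ 2 <
        C ^ θ * (N : ℝ) ^ θ * Real.log N ^ θ := by
      refine lt_of_le_of_lt ?_ h6
      gcongr
    rw [div_lt_iff₀ (by positivity)] at h7
    have h8 : Real.log (N : ℝ) ^ (2 + θ) = Real.log N ^ 2 * Real.log N ^ θ := by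
      rw [Real.rpow_add hl0, Real.rpow_two]
    have h9 : (N : ℝ) ^ (μ - θ) * (N : ℝ) ^ θ = (N : ℝ) ^ μ := by
      rw [← Real.rpow_add hN0]
      have : μ - θ + θ = μ := by ring
      rw [this]
    rw [h8] at h3
    have hA : 0 < (N : ℝ) ^ θ := by positivity
    have h10 : C ^ θ * (Real.log N ^ 2 * Real.log N ^ θ) < c / 2 * (N : ℝ) ^ (μ - θ) := by
      have h11 := mul_lt_mul_of_pos_left h3 hCθ
      have h12 : C ^ θ * (c / 2 / C ^ θ * (N : ℝ) ^ (μ - θ)) =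
          c / 2 * (N : ℝ) ^ (μ - θ) := by field_simp
      rwa [h12] at h11
    have h13 := mul_lt_mul_of_pos_right h10 hA
    have h14 : c / 2 * (N : ℝ) ^ (μ - θ) * (N : ℝ) ^ θ = c * ((N : ℝ) ^ μ / 2) := by
      rw [mul_assoc, h9]
      ring
    rw [h14] at h13
    have h15 : C ^ θ * (Real.log N ^ 2 * Real.log N ^ θ) * (N : ℝ) ^ θ =
      C ^ θ * (N : ℝ) ^ θ * Real.log N ^ θ * Real.log N ^ 2 := by ring
    linarith

end EHN
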